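import Mathlib

/-!
# Three-interval exchanges along the orbits of a flow
-/

open Set

namespace Q184.Piece

/-- A flow on a set `dom`, with a coordinate `t` along the orbits and orbitwise bounds. -/
structure Flow (X : Type*) where
  dom : Set X
  T : ℝ → X → X
  t : X → ℝ
  lo : X → ℝ
  hi : X → ℝ
  mem : ∀ s, ∀ x ∈ dom, T s x ∈ dom
  T_add : ∀ s s', ∀ x ∈ dom, T s (T s' x) = T (s + s') x
  T_zero : ∀ x ∈ dom, T 0 x = x
  t_T : ∀ s, ∀ x ∈ dom, t (T s x) = t x + s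
  lo_T : ∀ s, ∀ x ∈ dom, lo (T s x) = lo x
  hi_T : ∀ s, ∀ x ∈ dom, hi (T s x) = hi x

variable {X : Type*} (F : Flow X)

/-- the region -/
def Flow.Q : Set X := {x | x ∈ F.dom ∧ F.lo x ≤ F.t x ∧ F.t x < F.hi x}

/-- the exchange -/
noncomputable def Flow.map (a b : ℝ) (x : X) : X :=
  open Classical in
  if F.t x + b < F.hi x then F.T b x else
    if F.lo x ≤ F.t x - a then F.T (-a) x else F.T (b - a) x

theorem Flow.map_cases (a b : ℝ) (x : X) :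
    (F.t x + b < F.hi x ∧ F.map a b x = F.T b x) ∨
    (F.hi x ≤ F.t x + b ∧ F.lo x ≤ F.t x - a ∧ F.map a b x = F.T (-a) x) ∨
    (F.hi x ≤ F.t x + b ∧ F.t x - a < F.lo x ∧ F.map a b x = F.T (b - a) x) := by
  unfold Flow.map
  split_ifs with h1 h2
  · exact Or.inl ⟨h1, rfl⟩
  · exact Or.inr (Or.inl ⟨not_lt.mp h1, h2, rfl⟩)
  · exact Or.inr (Or.inr ⟨not_lt.mp h1, not_le.mp h2, rfl⟩)

theorem Flow.bijOn (a b : ℝ) (ha : 0 < a) (hb : 0 < b)
    (h : ∀ x ∈ F.Q, a ≤ F.hi x - F.lo x ∧ b ≤ F.hi x - F.lo x ∧ F.hi x - F.lo x ≤ a + b) :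
    BijOn (F.map a b) F.Q F.Q := by
  refine ⟨?_, ?_, ?_⟩
  · rintro x ⟨hx, h1, h2⟩
    obtain ⟨c1, c2, c3⟩ := h x ⟨hx, h1, h2⟩
    rcases F.map_cases a b x with ⟨d1, d2⟩ | ⟨d1, d2, d3⟩ | ⟨d1, d2, d3⟩
    · rw [d2]
      refine ⟨F.mem _ _ hx, ?_, ?_⟩
      · rw [F.t_T _ _ hx, F.lo_T _ _ hx]; linarith
      · rw [F.t_T _ _ hx, F.hi_T _ _ hx]; linarith
    · rw [d3]
      refine ⟨F.mem _ _ hx, ?_, ?_⟩
      · rw [F.t_T _ _ hx, F.lo_T _ _ hx]; linarith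
      · rw [F.t_T _ _ hx, F.hi_T _ _ hx]; linarith
    · rw [d3]
      refine ⟨F.mem _ _ hx, ?_, ?_⟩
      · rw [F.t_T _ _ hx, F.lo_T _ _ hx]; linarith
      · rw [F.t_T _ _ hx, F.hi_T _ _ hx]; linarith
  · rintro x ⟨hx, h1, h2⟩ y ⟨hy, h3, h4⟩ hxy
    obtain ⟨c1, c2, c3⟩ := h x ⟨hx, h1, h2⟩
    obtain ⟨c4, c5, c6⟩ := h y ⟨hy, h3, h4⟩
    have key : ∀ s s' : ℝ, F.T s x = F.T s' y →
        F.lo x = F.lo y ∧ F.hi x = F.hi y ∧ F.t x + s = F.t y + s' ∧ (s = s' → x = y) := by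
      intro s s' hss
      refine ⟨?_, ?_, ?_, ?_⟩
      · rw [← F.lo_T s x hx, hss, F.lo_T _ _ hy]
      · rw [← F.hi_T s x hx, hss, F.hi_T _ _ hy]
      · rw [← F.t_T s x hx, hss, F.t_T _ _ hy]
      · intro he
        subst he
        have h5 := congrArg (F.T (-s)) hss
        rw [F.T_add _ _ _ hx, F.T_add _ _ _ hy, neg_add_cancel, F.T_zero _ hx, F.T_zero _ hy] at h5
        exact h5
    rcases F.map_cases a b x with ⟨d1, d2⟩ | ⟨d1, d2, d3⟩ | ⟨d1, d2, d3⟩ <;>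
    rcases F.map_cases a b y with ⟨e1, e2⟩ | ⟨e1, e2, e3⟩ | ⟨e1, e2, e3⟩
    · rw [d2, e2] at hxy
      exact (key _ _ hxy).2.2.2 rfl
    · rw [d2, e3] at hxy
      obtain ⟨k1, k2, k3, -⟩ := key _ _ hxy
      exfalso; linarith
    · rw [d2, e3] at hxy
      obtain ⟨k1, k2, k3, -⟩ := key _ _ hxy
      exfalso; linarith
    · rw [d3, e2] at hxy
      obtain ⟨k1, k2, k3, -⟩ := key _ _ hxy
      exfalso; linarith
    · rw [d3, e3] at hxy
      exact (key _ _ hxy).2.2.2 rfl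
    · rw [d3, e3] at hxy
      obtain ⟨k1, k2, k3, -⟩ := key _ _ hxy
      exfalso; linarith
    · rw [d3, e2] at hxy
      obtain ⟨k1, k2, k3, -⟩ := key _ _ hxy
      exfalso; linarith
    · rw [d3, e3] at hxy
      obtain ⟨k1, k2, k3, -⟩ := key _ _ hxy
      exfalso; linarith
    · rw [d3, e3] at hxy
      exact (key _ _ hxy).2.2.2 rfl
  · rintro y ⟨hy, h1, h2⟩
    obtain ⟨c1, c2, c3⟩ := h y ⟨hy, h1, h2⟩
    have inv : ∀ s : ℝ, F.T s (F.T (-s) y) = y := by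
      intro s
      rw [F.T_add _ _ _ hy, add_neg_cancel, F.T_zero _ hy]
    by_cases k1 : F.lo y + b ≤ F.t y
    · refine ⟨F.T (-b) y, ⟨F.mem _ _ hy, ?_, ?_⟩, ?_⟩
      · rw [F.t_T _ _ hy, F.lo_T _ _ hy]; linarith
      · rw [F.t_T _ _ hy, F.hi_T _ _ hy]; linarith
      · rcases F.map_cases a b (F.T (-b) y) with ⟨d1, d2⟩ | ⟨d1, d2, d3⟩ | ⟨d1, d2, d3⟩
        · rw [d2]; exact inv b
        · rw [F.t_T _ _ hy, F.hi_T _ _ hy] at d1; exfalso; linarith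
        · rw [F.t_T _ _ hy, F.hi_T _ _ hy] at d1; exfalso; linarith
    · push Not at k1
      by_cases k2 : F.t y + a < F.hi y
      · refine ⟨F.T a y, ⟨F.mem _ _ hy, ?_, ?_⟩, ?_⟩
        · rw [F.t_T _ _ hy, F.lo_T _ _ hy]; linarith
        · rw [F.t_T _ _ hy, F.hi_T _ _ hy]; linarith
        · rcases F.map_cases a b (F.T a y) with ⟨d1, d2⟩ | ⟨d1, d2, d3⟩ | ⟨d1, d2, d3⟩
          · rw [F.t_T _ _ hy, F.hi_T _ _ hy] at d1; exfalso; linarith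
          · rw [d3]
            have := inv (-a)
            rwa [neg_neg] at this
          · rw [F.t_T _ _ hy, F.lo_T _ _ hy] at d2; exfalso; linarith
      · push Not at k2
        refine ⟨F.T (a - b) y, ⟨F.mem _ _ hy, ?_, ?_⟩, ?_⟩
        · rw [F.t_T _ _ hy, F.lo_T _ _ hy]; linarith
        · rw [F.t_T _ _ hy, F.hi_T _ _ hy]; linarith
        · rcases F.map_cases a b (F.T (a - b) y) with ⟨d1, d2⟩ | ⟨d1, d2, d3⟩ | ⟨d1, d2, d3⟩
          · rw [F.t_T _ _ hy, F.hi_T _ _ hy] at d1; exfalso; linarith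
          · rw [F.t_T _ _ hy, F.lo_T _ _ hy] at d2; exfalso; linarith
          · rw [d3]
            have := inv (b - a)
            rwa [neg_sub] at this

end Q184.Piece
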