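import Mathlib

/-!
# Words in piecewise Moebius bijections
-/

open Set Polynomial

namespace Q184.Piece

/-- `z'` is the image of `z` under the Moebius transformation of `M` -/
def Rel (M : Matrix (Fin 2) (Fin 2) ℂ) (z z' : ℂ) : Prop :=
  ∃ k : ℂ, k ≠ 0 ∧ M 0 0 * z + M 0 1 = k * z' ∧ M 1 0 * z + M 1 1 = k

/-- scalar matrices -/
def Scal {R : Type*} [Zero R] (M : Matrix (Fin 2) (Fin 2) R) : Prop :=
  M 0 1 = 0 ∧ M 1 0 = 0 ∧ M 0 0 = M 1 1

theorem Rel.comp {M N : Matrix (Fin 2) (Fin 2) ℂ} {z z' z'' : ℂ} (h1 : Rel M z z')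
    (h2 : Rel N z' z'') : Rel (N * M) z z'' := by
  obtain ⟨k, hk, h3, h4⟩ := h1
  obtain ⟨l, hl, h5, h6⟩ := h2
  refine ⟨k * l, mul_ne_zero hk hl, ?_, ?_⟩
  · simp only [Matrix.mul_apply, Fin.sum_univ_two]
    linear_combination N 0 0 * h3 + N 0 1 * h4 + k * h5
  · simp only [Matrix.mul_apply, Fin.sum_univ_two]
    linear_combination N 1 0 * h3 + N 1 1 * h4 + k * h6

theorem Rel.one (z : ℂ) : Rel 1 z z :=
  ⟨1, one_ne_zero, by simp, by simp⟩

theorem fixed_finite {M : Matrix (Fin 2) (Fin 2) ℂ} (h : ¬ Scal M) : {z | Rel M z z}.Finite := by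
  set P : ℂ[X] := C (M 1 0) * X ^ 2 + C (M 1 1 - M 0 0) * X - C (M 0 1) with hP
  have hP0 : P ≠ 0 := by
    intro h0
    apply h
    have c0 : P.coeff 0 = 0 := by rw [h0]; simp
    have c1 : P.coeff 1 = 0 := by rw [h0]; simp
    have c2 : P.coeff 2 = 0 := by rw [h0]; simp
    rw [hP] at c0 c1 c2
    simp [coeff_X, coeff_C] at c0 c1 c2
    exact ⟨c0, c2, (sub_eq_zero.mp c1).symm⟩
  refine (P.roots.toFinset.finite_toSet).subset ?_
  rintro z ⟨k, hk, h1, h2⟩
  rw [Finset.mem_coe, Multiset.mem_toFinset, mem_roots hP0, IsRoot.def, hP]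
  simp only [eval_sub, eval_add, eval_mul, eval_C, eval_pow, eval_X]
  linear_combination z * h2 - h1

variable {ι : Type}

/-- the product of the chosen matrices of a word -/
def prodMat {R : Type*} [Semiring R] (M : Fin 2 × Bool → ι → Matrix (Fin 2) (Fin 2) R)
    (L : List ((Fin 2 × Bool) × ι)) : Matrix (Fin 2) (Fin 2) R :=
  (L.map fun x => M x.1 x.2).prod

theorem prodMat_cons {R : Type*} [Semiring R] (M : Fin 2 × Bool → ι → Matrix (Fin 2) (Fin 2) R)
    (x : (Fin 2 × Bool) × ι) (L : List ((Fin 2 × Bool) × ι)) :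
    prodMat M (x :: L) = M x.1 x.2 * prodMat M L := by
  unfold prodMat
  rw [List.map_cons, List.prod_cons]

theorem prodMat_nil {R : Type*} [Semiring R] (M : Fin 2 × Bool → ι → Matrix (Fin 2) (Fin 2) R) :
    prodMat M [] = 1 := rfl

theorem prodMat_eval (M : Fin 2 × Bool → ι → Matrix (Fin 2) (Fin 2) ℂ[X]) (t : ℂ)
    (L : List ((Fin 2 × Bool) × ι)) :
    prodMat (fun a j => (M a j).map (eval t)) L = (prodMat M L).map (eval t) := by
  induction L with
  | nil =>
    rw [prodMat_nil, prodMat_nil]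
    ext i j
    by_cases h : i = j
    · subst h; simp
    · simp [Matrix.one_apply_ne h]
  | cons x L ih =>
    rw [prodMat_cons, prodMat_cons, ih]
    ext i j
    simp [Matrix.mul_apply, Fin.sum_univ_two, eval_add, eval_mul]

/-- The parameters for which all products of the matrices of reduced words are non-scalar. -/
def Good (M : Fin 2 × Bool → ι → Matrix (Fin 2) (Fin 2) ℂ[X]) (t : ℂ) : Prop :=
  ∀ L : List ((Fin 2 × Bool) × ι), L ≠ [] → FreeGroup.IsReduced (L.map Prod.fst) →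
    ¬ Scal (prodMat (fun a j => (M a j).map (eval t)) L)

theorem bad_countable [Countable ι] (M : Fin 2 × Bool → ι → Matrix (Fin 2) (Fin 2) ℂ[X])
    (hM : ∀ L : List ((Fin 2 × Bool) × ι), L ≠ [] → FreeGroup.IsReduced (L.map Prod.fst) →
      ¬ Scal (prodMat M L)) : {t | ¬ Good M t}.Countable := by
  have hsub : {t | ¬ Good M t} ⊆ ⋃ L : {L : List ((Fin 2 × Bool) × ι) // L ≠ [] ∧
      FreeGroup.IsReduced (L.map Prod.fst)}, {t | Scal ((prodMat M L.1).map (eval t))} := by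
    intro t ht
    have ht' : ¬ Good M t := ht
    unfold Good at ht'
    push Not at ht'
    obtain ⟨L, h1, h2, h3⟩ := ht'
    rw [prodMat_eval] at h3
    exact mem_iUnion.mpr ⟨⟨L, h1, h2⟩, h3⟩
  refine Countable.mono hsub (countable_iUnion ?_)
  rintro ⟨L, h1, h2⟩
  have h3 := hM L h1 h2
  apply Set.Finite.countable
  unfold Scal at h3
  by_cases k1 : prodMat M L 0 1 = 0
  · by_cases k2 : prodMat M L 1 0 = 0
    · have k3 : prodMat M L 0 0 - prodMat M L 1 1 ≠ 0 := fun h => h3 ⟨k1, k2, sub_eq_zero.mp h⟩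
      refine ((prodMat M L 0 0 - prodMat M L 1 1).roots.toFinset.finite_toSet).subset ?_
      rintro t ⟨-, -, h4⟩
      rw [Finset.mem_coe, Multiset.mem_toFinset, mem_roots k3, IsRoot.def, eval_sub]
      exact sub_eq_zero.mpr h4
    · refine ((prodMat M L 1 0).roots.toFinset.finite_toSet).subset ?_
      rintro t ⟨-, h4, -⟩
      rw [Finset.mem_coe, Multiset.mem_toFinset, mem_roots k2, IsRoot.def]
      exact h4
  · refine ((prodMat M L 0 1).roots.toFinset.finite_toSet).subset ?_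
    rintro t ⟨h4, -, -⟩
    rw [Finset.mem_coe, Multiset.mem_toFinset, mem_roots k1, IsRoot.def]
    exact h4

/-- the bijection of a word -/
def word {Q : Set ℂ} (f : Fin 2 → Equiv.Perm Q) (L : List (Fin 2 × Bool)) : Equiv.Perm Q :=
  (L.map fun x => cond x.2 (f x.1) (f x.1)⁻¹).prod

theorem word_cons {Q : Set ℂ} (f : Fin 2 → Equiv.Perm Q) (x : Fin 2 × Bool)
    (L : List (Fin 2 × Bool)) :
    word f (x :: L) = cond x.2 (f x.1) (f x.1)⁻¹ * word f L := by
  unfold word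
  rw [List.map_cons, List.prod_cons]

theorem word_rel {Q : Set ℂ} (f : Fin 2 → Equiv.Perm Q)
    (M : Fin 2 × Bool → ι → Matrix (Fin 2) (Fin 2) ℂ)
    (h1 : ∀ a, ∀ x : Q, ∃ j, Rel (M (a, true) j) x (f a x))
    (h2 : ∀ a, ∀ x : Q, ∃ j, Rel (M (a, false) j) (f a x) x) (L : List (Fin 2 × Bool)) (x : Q) :
    ∃ L' : List ((Fin 2 × Bool) × ι), L'.map Prod.fst = L ∧ Rel (prodMat M L') x (word f L x) := by
  induction L with
  | nil => exact ⟨[], rfl, by rw [prodMat_nil]; exact Rel.one _⟩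
  | cons a L ih =>
    obtain ⟨L', hL, hR⟩ := ih
    obtain ⟨i, b⟩ := a
    rw [word_cons]
    cases b with
    | true =>
      obtain ⟨j, hj⟩ := h1 i (word f L x)
      refine ⟨((i, true), j) :: L', by rw [List.map_cons, hL], ?_⟩
      rw [prodMat_cons]
      exact hR.comp hj
    | false =>
      obtain ⟨j, hj⟩ := h2 i ((f i)⁻¹ (word f L x))
      refine ⟨((i, false), j) :: L', by rw [List.map_cons, hL], ?_⟩
      rw [prodMat_cons]
      have h3 : f i ((f i)⁻¹ (word f L x)) = word f L x := (f i).apply_symm_apply _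
      rw [h3] at hj
      exact hR.comp hj

theorem word_fixed_finite [Finite ι] {Q : Set ℂ} (f : Fin 2 → Equiv.Perm Q)
    (M : Fin 2 × Bool → ι → Matrix (Fin 2) (Fin 2) ℂ)
    (h1 : ∀ a, ∀ x : Q, ∃ j, Rel (M (a, true) j) x (f a x))
    (h2 : ∀ a, ∀ x : Q, ∃ j, Rel (M (a, false) j) (f a x) x)
    (h3 : ∀ L : List ((Fin 2 × Bool) × ι), L ≠ [] → FreeGroup.IsReduced (L.map Prod.fst) →
      ¬ Scal (prodMat M L)) (L : List (Fin 2 × Bool)) (hL : L ≠ []) (hr : FreeGroup.IsReduced L) :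
    {x : Q | word f L x = x}.Finite := by
  set S : Set (List ((Fin 2 × Bool) × ι)) := {L' | L'.map Prod.fst = L} with hS
  have hSfin : S.Finite := by
    refine (List.finite_length_eq ((Fin 2 × Bool) × ι) L.length).subset ?_
    intro L' hL'
    have : L'.map Prod.fst = L := hL'
    change L'.length = L.length
    rw [← this, List.length_map]
  have hU : (⋃ L' ∈ S, {z : ℂ | Rel (prodMat M L') z z}).Finite := by
    refine hSfin.biUnion ?_
    intro L' hL'
    have hL'' : L'.map Prod.fst = L := hL'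
    apply fixed_finite
    apply h3
    · rintro rfl
      exact hL hL''.symm
    · rw [hL'']
      exact hr
  refine Set.Finite.of_finite_image (f := ((↑) : Q → ℂ)) (hU.subset ?_)
    Subtype.val_injective.injOn
  rintro _ ⟨x, hx, rfl⟩
  obtain ⟨L', hL', hR⟩ := word_rel f M h1 h2 L x
  refine mem_iUnion₂.mpr ⟨L', hL', ?_⟩
  have hx' : word f L x = x := hx
  rw [hx'] at hR
  exact hR

theorem lift_eq_word {Q : Set ℂ} (f : Fin 2 → Equiv.Perm Q) (w : FreeGroup (Fin 2)) :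
    FreeGroup.lift f w = word f w.toWord := by
  conv_lhs => rw [← FreeGroup.mk_toWord (x := w)]
  rw [FreeGroup.lift_mk]
  rfl

/-- the conclusion for the group -/
theorem lift_fixed_finite [Finite ι] {Q : Set ℂ} (f : Fin 2 → Equiv.Perm Q)
    (M : Fin 2 × Bool → ι → Matrix (Fin 2) (Fin 2) ℂ)
    (h1 : ∀ a, ∀ x : Q, ∃ j, Rel (M (a, true) j) x (f a x))
    (h2 : ∀ a, ∀ x : Q, ∃ j, Rel (M (a, false) j) (f a x) x)
    (h3 : ∀ L : List ((Fin 2 × Bool) × ι), L ≠ [] → FreeGroup.IsReduced (L.map Prod.fst) →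
      ¬ Scal (prodMat M L)) (w : FreeGroup (Fin 2)) (hw : w ≠ 1) :
    {x : Q | FreeGroup.lift f w x = x}.Finite := by
  rw [lift_eq_word]
  apply word_fixed_finite f M h1 h2 h3
  · intro h
    exact hw (FreeGroup.toWord_eq_nil_iff.mp h)
  · exact FreeGroup.isReduced_toWord

theorem lift_ne_one [Finite ι] {Q : Set ℂ} (hQ : Q.Infinite) (f : Fin 2 → Equiv.Perm Q)
    (M : Fin 2 × Bool → ι → Matrix (Fin 2) (Fin 2) ℂ)
    (h1 : ∀ a, ∀ x : Q, ∃ j, Rel (M (a, true) j) x (f a x))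
    (h2 : ∀ a, ∀ x : Q, ∃ j, Rel (M (a, false) j) (f a x) x)
    (h3 : ∀ L : List ((Fin 2 × Bool) × ι), L ≠ [] → FreeGroup.IsReduced (L.map Prod.fst) →
      ¬ Scal (prodMat M L)) (w : FreeGroup (Fin 2)) (hw : w ≠ 1) :
    FreeGroup.lift f w ≠ 1 := by
  intro h
  have h4 := lift_fixed_finite f M h1 h2 h3 w hw
  rw [h] at h4
  have h5 : {x : Q | (1 : Equiv.Perm Q) x = x} = univ := by ext x; simp
  rw [h5] at h4
  have := hQ.to_subtype
  exact infinite_univ h4

end Q184.Piece
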