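import Mathlib

/-!
# Absorbing a small invariant set
-/

open Set

namespace Q184.Piece

theorem absorb {Y : Type*} (T : Equiv.Perm Y) (D : Set Y)
    (hT : ∀ n : ℕ, ∀ d ∈ D, (T ^ (n + 1)) d ∉ D) :
    ∃ e : Y ≃ {x // x ∉ D}, ∀ x, (e x : Y) = x ∨ (e x : Y) = T x := by
  classical
  set E : Set Y := {x | ∃ n : ℕ, ∃ d ∈ D, (T ^ n) d = x} with hE
  have hDE : ∀ d ∈ D, d ∈ E := fun d hd => ⟨0, d, hd, rfl⟩
  have hTE : ∀ x ∈ E, T x ∈ E ∧ T x ∉ D := by
    rintro _ ⟨n, d, hd, rfl⟩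
    have h : T ((T ^ n) d) = (T ^ (n + 1)) d := by rw [pow_succ']; rfl
    exact ⟨⟨n + 1, d, hd, h.symm⟩, by rw [h]; exact hT n d hd⟩
  have hTE' : ∀ x ∈ E, x ∉ D → ∃ y ∈ E, T y = x := by
    rintro _ ⟨n, d, hd, rfl⟩ hx
    cases n with
    | zero => exact absurd hd hx
    | succ n => exact ⟨(T ^ n) d, ⟨n, d, hd, rfl⟩, by rw [pow_succ']; rfl⟩
  let h : Y → {x // x ∉ D} := fun x =>
    if hx : x ∈ E then ⟨T x, (hTE x hx).2⟩ else ⟨x, fun hd => hx (hDE x hd)⟩
  have hval : ∀ x, (x ∈ E ∧ (h x : Y) = T x) ∨ (x ∉ E ∧ (h x : Y) = x) := by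
    intro x
    by_cases hx : x ∈ E
    · left
      exact ⟨hx, by simp only [h, dif_pos hx]⟩
    · right
      exact ⟨hx, by simp only [h, dif_neg hx]⟩
  have hbij : Function.Bijective h := by
    constructor
    · intro x y hxy
      have hxy' : (h x : Y) = h y := congrArg Subtype.val hxy
      rcases hval x with ⟨h1, h2⟩ | ⟨h1, h2⟩ <;> rcases hval y with ⟨h3, h4⟩ | ⟨h3, h4⟩
      · rw [h2, h4] at hxy'
        exact T.injective hxy'
      · rw [h2, h4] at hxy'
        exact absurd (hxy' ▸ (hTE x h1).1) h3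
      · rw [h2, h4] at hxy'
        exact absurd (hxy'.symm ▸ (hTE y h3).1) h1
      · rw [h2, h4] at hxy'
        exact hxy'
    · rintro ⟨y, hy⟩
      by_cases hyE : y ∈ E
      · obtain ⟨x, hx, hxy⟩ := hTE' y hyE hy
        refine ⟨x, Subtype.ext ?_⟩
        rcases hval x with ⟨h1, h2⟩ | ⟨h1, h2⟩
        · rw [h2, hxy]
        · exact absurd hx h1
      · refine ⟨y, Subtype.ext ?_⟩
        rcases hval y with ⟨h1, h2⟩ | ⟨h1, h2⟩
        · exact absurd h1 hyE
        · rw [h2]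
  refine ⟨Equiv.ofBijective h hbij, fun x => ?_⟩
  rcases hval x with ⟨_, h2⟩ | ⟨_, h2⟩
  · exact Or.inr h2
  · exact Or.inl h2

/-- the points with nontrivial stabiliser -/
def Stab {Y : Type*} (f : Fin 2 → Equiv.Perm Y) : Set Y :=
  {x | ∃ w : FreeGroup (Fin 2), w ≠ 1 ∧ FreeGroup.lift f w x = x}

theorem stab_inv {Y : Type*} (f : Fin 2 → Equiv.Perm Y) (i : Fin 2) (x : Y) :
    f i x ∈ Stab f ↔ x ∈ Stab f := by
  have hlift : ∀ y, FreeGroup.lift f (FreeGroup.of i) y = f i y := by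
    intro y
    rw [FreeGroup.lift_apply_of]
  constructor
  · rintro ⟨w, hw, hx⟩
    refine ⟨(FreeGroup.of i)⁻¹ * w * FreeGroup.of i, ?_, ?_⟩
    · intro h
      apply hw
      have : w = FreeGroup.of i * ((FreeGroup.of i)⁻¹ * w * FreeGroup.of i) * (FreeGroup.of i)⁻¹ := by
        group
      rw [this, h]
      group
    · rw [map_mul, map_mul, map_inv, Equiv.Perm.mul_apply, Equiv.Perm.mul_apply, hlift, hx]
      rw [FreeGroup.lift_apply_of]
      exact (f i).symm_apply_apply x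
  · rintro ⟨w, hw, hx⟩
    refine ⟨FreeGroup.of i * w * (FreeGroup.of i)⁻¹, ?_, ?_⟩
    · intro h
      apply hw
      have : w = (FreeGroup.of i)⁻¹ * (FreeGroup.of i * w * (FreeGroup.of i)⁻¹) * FreeGroup.of i := by
        group
      rw [this, h]
      group
    · rw [map_mul, map_mul, map_inv, Equiv.Perm.mul_apply, Equiv.Perm.mul_apply,
        FreeGroup.lift_apply_of]
      have h1 : (f i)⁻¹ (f i x) = x := (f i).symm_apply_apply x
      rw [h1, hx]

theorem conj_free {Y : Type*} (f : Fin 2 → Equiv.Perm Y) (e : Y ≃ {x // x ∉ Stab f}) :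
    ∃ f' : Fin 2 → Equiv.Perm Y, (∀ i x, (e (f' i x) : Y) = f i (e x)) ∧
      ∀ w : FreeGroup (Fin 2), w ≠ 1 → ∀ x, FreeGroup.lift f' w x ≠ x := by
  set r : Fin 2 → Equiv.Perm {x // x ∉ Stab f} := fun i =>
    (f i).subtypePerm (fun x => not_congr (stab_inv f i x)) with hr
  set f' : Fin 2 → Equiv.Perm Y := fun i => e.permCongr.symm (r i) with hf'
  have h1 : ∀ i x, (e (f' i x) : Y) = f i (e x) := by
    intro i x
    have : e (f' i x) = r i (e x) := by
      simp only [hf']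
      change e (e.symm (r i (e x))) = _
      rw [Equiv.apply_symm_apply]
    rw [this]
    rfl
  refine ⟨f', h1, ?_⟩
  have h2 : ∀ w : FreeGroup (Fin 2), ∀ x, (e (FreeGroup.lift f' w x) : Y) =
      FreeGroup.lift f w (e x) := by
    intro w
    induction w using FreeGroup.induction_on with
    | C1 => intro x; rw [map_one, map_one]; rfl
    | of i => intro x; rw [FreeGroup.lift_apply_of, FreeGroup.lift_apply_of]; exact h1 i x
    | inv_of i ih =>
      intro x
      rw [map_inv, map_inv, FreeGroup.lift_apply_of, FreeGroup.lift_apply_of]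
      have h3 := h1 i ((f' i)⁻¹ x)
      have h4 : f' i ((f' i)⁻¹ x) = x := (f' i).apply_symm_apply x
      rw [h4] at h3
      rw [h3]
      exact ((f i).symm_apply_apply _).symm
    | mul v w hv hw =>
      intro x
      rw [map_mul, map_mul, Equiv.Perm.mul_apply, Equiv.Perm.mul_apply, hv, hw]
  intro w hw x hx
  have h3 := h2 w x
  rw [hx] at h3
  exact (e x).2 ⟨w, hw, h3.symm⟩

end Q184.Piece
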