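import Mathlib
import Pool.Agent.Q184.Piece.Words

/-!
# Words in piecewise Moebius bijections of a type with an injection to `ℂ`
-/

open Set Polynomial

namespace Q184.Piece

variable {ι : Type} {Y : Type} (c : Y → ℂ)

/-- the bijection of a word -/
def wordY (f : Fin 2 → Equiv.Perm Y) (L : List (Fin 2 × Bool)) : Equiv.Perm Y :=
  (L.map fun x => cond x.2 (f x.1) (f x.1)⁻¹).prod

theorem wordY_cons (f : Fin 2 → Equiv.Perm Y) (x : Fin 2 × Bool)
    (L : List (Fin 2 × Bool)) :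
    wordY f (x :: L) = cond x.2 (f x.1) (f x.1)⁻¹ * wordY f L := by
  unfold wordY
  rw [List.map_cons, List.prod_cons]

theorem wordY_rel (f : Fin 2 → Equiv.Perm Y)
    (M : Fin 2 × Bool → ι → Matrix (Fin 2) (Fin 2) ℂ)
    (h1 : ∀ a, ∀ x : Y, ∃ j, Rel (M (a, true) j) (c x) (c (f a x)))
    (h2 : ∀ a, ∀ x : Y, ∃ j, Rel (M (a, false) j) (c (f a x)) (c x)) (L : List (Fin 2 × Bool)) (x : Y) :
    ∃ L' : List ((Fin 2 × Bool) × ι), L'.map Prod.fst = L ∧ Rel (prodMat M L') (c x) (c (wordY f L x)) := by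
  induction L with
  | nil => exact ⟨[], rfl, by rw [prodMat_nil]; exact Rel.one _⟩
  | cons a L ih =>
    obtain ⟨L', hL, hR⟩ := ih
    obtain ⟨i, b⟩ := a
    rw [wordY_cons]
    cases b with
    | true =>
      obtain ⟨j, hj⟩ := h1 i (wordY f L x)
      refine ⟨((i, true), j) :: L', by rw [List.map_cons, hL], ?_⟩
      rw [prodMat_cons]
      exact hR.comp hj
    | false =>
      obtain ⟨j, hj⟩ := h2 i ((f i)⁻¹ (wordY f L x))
      refine ⟨((i, false), j) :: L', by rw [List.map_cons, hL], ?_⟩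
      rw [prodMat_cons]
      have h3 : f i ((f i)⁻¹ (wordY f L x)) = wordY f L x := (f i).apply_symm_apply _
      rw [h3] at hj
      exact hR.comp hj

theorem wordY_fixed_finite [Finite ι] (hc : Function.Injective c) (f : Fin 2 → Equiv.Perm Y)
    (M : Fin 2 × Bool → ι → Matrix (Fin 2) (Fin 2) ℂ)
    (h1 : ∀ a, ∀ x : Y, ∃ j, Rel (M (a, true) j) (c x) (c (f a x)))
    (h2 : ∀ a, ∀ x : Y, ∃ j, Rel (M (a, false) j) (c (f a x)) (c x))
    (h3 : ∀ L : List ((Fin 2 × Bool) × ι), L ≠ [] → FreeGroup.IsReduced (L.map Prod.fst) →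
      ¬ Scal (prodMat M L)) (L : List (Fin 2 × Bool)) (hL : L ≠ []) (hr : FreeGroup.IsReduced L) :
    {x : Y | wordY f L x = x}.Finite := by
  set S : Set (List ((Fin 2 × Bool) × ι)) := {L' | L'.map Prod.fst = L} with hS
  have hSfin : S.Finite := by
    refine (List.finite_length_eq ((Fin 2 × Bool) × ι) L.length).subset ?_
    intro L' hL'
    have : L'.map Prod.fst = L := hL'
    change L'.length = L.length
    rw [← this, List.length_map]
  have hU : (⋃ L' ∈ S, {z : ℂ | Rel (prodMat M L') z z}).Finite := by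
    refine hSfin.biUnion ?_
    intro L' hL'
    have hL'' : L'.map Prod.fst = L := hL'
    apply fixed_finite
    apply h3
    · rintro rfl
      exact hL hL''.symm
    · rw [hL'']
      exact hr
  refine Set.Finite.of_finite_image (f := c) (hU.subset ?_) hc.injOn
  rintro _ ⟨x, hx, rfl⟩
  obtain ⟨L', hL', hR⟩ := wordY_rel c f M h1 h2 L x
  refine mem_iUnion₂.mpr ⟨L', hL', ?_⟩
  have hx' : wordY f L x = x := hx
  rw [hx'] at hR
  exact hR

theorem lift_eq_wordY (f : Fin 2 → Equiv.Perm Y) (w : FreeGroup (Fin 2)) :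
    FreeGroup.lift f w = wordY f w.toWord := by
  conv_lhs => rw [← FreeGroup.mk_toWord (x := w)]
  rw [FreeGroup.lift_mk]
  rfl

/-- the conclusion for the group -/
theorem liftY_fixed_finite [Finite ι] (hc : Function.Injective c) (f : Fin 2 → Equiv.Perm Y)
    (M : Fin 2 × Bool → ι → Matrix (Fin 2) (Fin 2) ℂ)
    (h1 : ∀ a, ∀ x : Y, ∃ j, Rel (M (a, true) j) (c x) (c (f a x)))
    (h2 : ∀ a, ∀ x : Y, ∃ j, Rel (M (a, false) j) (c (f a x)) (c x))
    (h3 : ∀ L : List ((Fin 2 × Bool) × ι), L ≠ [] → FreeGroup.IsReduced (L.map Prod.fst) →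
      ¬ Scal (prodMat M L)) (w : FreeGroup (Fin 2)) (hw : w ≠ 1) :
    {x : Y | FreeGroup.lift f w x = x}.Finite := by
  rw [lift_eq_wordY]
  apply wordY_fixed_finite c hc f M h1 h2 h3
  · intro h
    exact hw (FreeGroup.toWord_eq_nil_iff.mp h)
  · exact FreeGroup.isReduced_toWord

theorem liftY_ne_one [Finite ι] [Infinite Y] (hc : Function.Injective c) (f : Fin 2 → Equiv.Perm Y)
    (M : Fin 2 × Bool → ι → Matrix (Fin 2) (Fin 2) ℂ)
    (h1 : ∀ a, ∀ x : Y, ∃ j, Rel (M (a, true) j) (c x) (c (f a x)))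
    (h2 : ∀ a, ∀ x : Y, ∃ j, Rel (M (a, false) j) (c (f a x)) (c x))
    (h3 : ∀ L : List ((Fin 2 × Bool) × ι), L ≠ [] → FreeGroup.IsReduced (L.map Prod.fst) →
      ¬ Scal (prodMat M L)) (w : FreeGroup (Fin 2)) (hw : w ≠ 1) :
    FreeGroup.lift f w ≠ 1 := by
  intro h
  have h4 := liftY_fixed_finite c hc f M h1 h2 h3 w hw
  rw [h] at h4
  have h5 : {x : Y | (1 : Equiv.Perm Y) x = x} = univ := by ext x; simp
  rw [h5] at h4
  exact infinite_univ h4

end Q184.Piece
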